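import Pool.Agent.TH336.ER.Defs

/-!
# ER-GAUSS: the Gaussian integral on the line `Re s = 4` (helper81 for helper336)
-/

set_option autoImplicit false

open Complex MeasureTheory Set Filter Topology

namespace Pool.Agent.TH81.ER

open Pool.Agent.W188.QS Pool.Agent.H306R2 Pool.Agent.TH336.ER

/-- the integrand as an exponential of a quadratic polynomial -/
theorem integrand (T Δ z y : ℝ) (hz : 0 < z) (hΔ : 0 < Δ) :
    (z : ℂ) ^ (-fp y) * GG T Δ (fp y) =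
      cexp ((((-(1 / Δ ^ 2) : ℝ) : ℂ)) * (y : ℂ) ^ 2 +
        (-(Real.log z : ℂ) * I + 2 * (7 / 2 - (T : ℂ) * I) * I / (Δ : ℂ) ^ 2) * (y : ℂ) +
        (-4 * (Real.log z : ℂ) + (7 / 2 - (T : ℂ) * I) ^ 2 / (Δ : ℂ) ^ 2)) := by
  have hz' : (z : ℂ) ≠ 0 := by exact_mod_cast hz.ne'
  have hΔ' : (Δ : ℂ) ≠ 0 := by exact_mod_cast hΔ.ne'
  rw [Complex.cpow_def_of_ne_zero hz', ← Complex.ofReal_log hz.le]
  unfold GG fp cp
  rw [← Complex.exp_add]
  congr 1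
  push_cast
  field_simp
  ring_nf
  simp only [I_sq]
  ring

theorem norm_integrand (T Δ z y : ℝ) (hz : 0 < z) (hΔ : 0 < Δ) :
    ‖(z : ℂ) ^ (-fp y) * GG T Δ (fp y)‖ =
      z ^ (-(4 : ℝ)) * Real.exp ((49 / 4 - (y - T) ^ 2) / Δ ^ 2) := by
  rw [norm_mul, Complex.norm_cpow_eq_rpow_re_of_pos hz]
  congr 1
  · congr 1
    simp [fp]
  · unfold GG
    rw [Complex.norm_exp]
    congr 1
    have e : ((fp y - cp T) / (Δ : ℂ)) ^ 2 =
        (((49 / 4 - (y - T) ^ 2) / Δ ^ 2 : ℝ) : ℂ) + ((7 * (y - T) / Δ ^ 2 : ℝ) : ℂ) * I := by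
      have hΔ' : (Δ : ℂ) ≠ 0 := by exact_mod_cast hΔ.ne'
      unfold fp cp
      push_cast
      field_simp
      ring_nf
      simp only [I_sq]
      ring
    rw [e, add_re, mul_I_re, ofReal_re, ofReal_im]
    ring

theorem full (T Δ z : ℝ) (hz : 0 < z) (hΔ : 0 < Δ) :
    ∫ y : ℝ, (z : ℂ) ^ (-fp y) * GG T Δ (fp y) =
      ((√Real.pi * Δ * Real.exp (-(Δ ^ 2 * Real.log z ^ 2 / 4)) : ℝ) : ℂ) * (z : ℂ) ^ (-cp T) := by
  have hz' : (z : ℂ) ≠ 0 := by exact_mod_cast hz.ne'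
  have hΔ' : (Δ : ℂ) ≠ 0 := by exact_mod_cast hΔ.ne'
  simp only [integrand T Δ z _ hz hΔ]
  rw [integral_cexp_quadratic]
  · have e1 : ((Real.pi : ℂ) / -((-(1 / Δ ^ 2) : ℝ) : ℂ)) ^ (1 / 2 : ℂ) = ((√Real.pi * Δ : ℝ) : ℂ) := by
      have e2 : ((Real.pi : ℂ) / -((-(1 / Δ ^ 2) : ℝ) : ℂ)) = ((Real.pi * Δ ^ 2 : ℝ) : ℂ) := by
        push_cast
        field_simp
      rw [e2, show (1 / 2 : ℂ) = ((1 / 2 : ℝ) : ℂ) by push_cast; ring,
        ← Complex.ofReal_cpow (by positivity), ← Real.sqrt_eq_rpow,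
        Real.sqrt_mul Real.pi_pos.le, Real.sqrt_sq hΔ.le]
    rw [e1, Complex.cpow_def_of_ne_zero hz', ← Complex.ofReal_log hz.le]
    push_cast
    rw [mul_assoc _ (cexp _) (cexp _), ← Complex.exp_add]
    congr 2
    unfold cp
    field_simp
    ring_nf
    simp only [I_sq, I_pow_three, I_pow_four]
    ring
  · rw [ofReal_re]
    have : 0 < 1 / Δ ^ 2 := by positivity
    linarith

theorem integrable_F (T Δ z : ℝ) (hz : 0 < z) (hΔ : 0 < Δ) :
    Integrable fun y : ℝ => (z : ℂ) ^ (-fp y) * GG T Δ (fp y) := by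
  simp only [integrand T Δ z _ hz hΔ]
  refine integrable_cexp_quadratic' ?_ _ _
  rw [ofReal_re]
  have : 0 < 1 / Δ ^ 2 := by positivity
  linarith

/-- bound of the tail -/
theorem tail_bound (T Δ a b z D : ℝ) (hz : 0 < z) (hΔ : 1 ≤ Δ) (hD : 0 ≤ D) (ha : a ≤ T - D)
    (hb : T + D ≤ b) :
    ‖∫ y in (Ioc a b)ᶜ, (z : ℂ) ^ (-fp y) * GG T Δ (fp y)‖ ≤
      z ^ (-(4 : ℝ)) * Real.exp (49 / 4) * Real.exp (-(D ^ 2 / (2 * Δ ^ 2))) *
        (√(2 * Real.pi) * Δ) := by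
  have hΔ0 : 0 < Δ := by linarith
  set c : ℝ := 1 / (2 * Δ ^ 2) with hc
  have hc0 : 0 < c := by positivity
  set K : ℝ := z ^ (-(4 : ℝ)) * Real.exp (49 / 4) * Real.exp (-(D ^ 2 / (2 * Δ ^ 2))) with hK
  have hK0 : 0 ≤ K := by positivity
  have hint : Integrable fun y : ℝ => K * Real.exp (-c * (y - T) ^ 2) := by
    have h := (integrable_exp_neg_mul_sq hc0).comp_sub_right T
    exact h.const_mul K
  have hval : ∫ y : ℝ, K * Real.exp (-c * (y - T) ^ 2) = K * (√(2 * Real.pi) * Δ) := by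
    rw [integral_const_mul, integral_sub_right_eq_self (fun y : ℝ => Real.exp (-c * y ^ 2)) T,
      integral_gaussian]
    congr 1
    rw [hc, show Real.pi / (1 / (2 * Δ ^ 2)) = (2 * Real.pi) * Δ ^ 2 by field_simp,
      Real.sqrt_mul (by positivity), Real.sqrt_sq hΔ0.le]
  rw [← hval]
  have hmeas : MeasurableSet ((Ioc a b)ᶜ) := measurableSet_Ioc.compl
  refine (norm_integral_le_of_norm_le hint.integrableOn ?_).trans
    (setIntegral_le_integral hint (Filter.Eventually.of_forall fun y => ?_))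
  · refine (ae_restrict_iff' hmeas).2 (Filter.Eventually.of_forall fun y hy => ?_)
    rw [norm_integrand T Δ z y hz hΔ0, hK, mul_assoc, mul_assoc, ← Real.exp_add,
      ← Real.exp_add]
    refine mul_le_mul_of_nonneg_left (Real.exp_le_exp.2 ?_) (by positivity)
    have h1 : D ^ 2 ≤ (y - T) ^ 2 := by
      have h2 : y ≤ a ∨ b < y := by
        by_contra hcon
        push Not at hcon
        exact hy ⟨hcon.1, hcon.2⟩
      rcases h2 with h2 | h2
      · nlinarith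
      · nlinarith
    have h3 : (49 / 4) / Δ ^ 2 ≤ 49 / 4 := div_le_self (by norm_num) (by nlinarith)
    have h4 : D ^ 2 * c ≤ (y - T) ^ 2 * c := mul_le_mul_of_nonneg_right h1 hc0.le
    have e1 : (49 / 4 - (y - T) ^ 2) / Δ ^ 2 = (49 / 4) / Δ ^ 2 - 2 * ((y - T) ^ 2 * c) := by
      rw [hc]; field_simp
    have e2 : D ^ 2 / (2 * Δ ^ 2) = D ^ 2 * c := by rw [hc]; ring
    rw [e1, e2]
    linarith
  · positivity

theorem gauss_fp : ∃ B T₀ : ℝ, 1 ≤ B ∧ 100 ≤ T₀ ∧ ∀ T Δ a b z : ℝ, T₀ ≤ T → 1 ≤ Δ →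
    B * Δ * √(Real.log T) ≤ T → |a - T / 2| ≤ 1 → |b - 3 * T / 2| ≤ 1 → 0 < z →
    ‖(∫ y in a..b, (z : ℂ) ^ (-fp y) * GG T Δ (fp y)) -
      ((√Real.pi * Δ * Real.exp (-(Δ ^ 2 * Real.log z ^ 2 / 4)) : ℝ) : ℂ) * (z : ℂ) ^ (-cp T)‖ ≤
      z ^ (-(4 : ℝ)) * T ^ (-(6 : ℝ)) := by
  refine ⟨20, 100, by norm_num, le_rfl, ?_⟩
  intro T Δ a b z hT hΔ hB ha hb hz
  have hΔ0 : 0 < Δ := by linarith
  have hT0 : 0 < T := by linarith
  rw [abs_le] at ha hb
  have hlog : 1 ≤ Real.log T := by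
    rw [Real.le_log_iff_exp_le hT0]
    have := Real.exp_one_lt_d9
    linarith
  have hs1 : 1 ≤ √(Real.log T) := Real.one_le_sqrt.2 hlog
  have hab : a ≤ b := by linarith
  have h1 : (∫ y in a..b, (z : ℂ) ^ (-fp y) * GG T Δ (fp y)) -
      ((√Real.pi * Δ * Real.exp (-(Δ ^ 2 * Real.log z ^ 2 / 4)) : ℝ) : ℂ) * (z : ℂ) ^ (-cp T) =
      -∫ y in (Ioc a b)ᶜ, (z : ℂ) ^ (-fp y) * GG T Δ (fp y) := by
    rw [← full T Δ z hz hΔ0, intervalIntegral.integral_of_le hab,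
      ← integral_add_compl (measurableSet_Ioc (a := a) (b := b)) (integrable_F T Δ z hz hΔ0)]
    ring
  rw [h1, norm_neg]
  refine (tail_bound T Δ a b z (T / 3) hz hΔ (by linarith) (by linarith) (by linarith)).trans ?_
  rw [mul_assoc, mul_assoc]
  refine mul_le_mul_of_nonneg_left ?_ (by positivity)
  -- `exp (-(T/3)^2 / (2 Δ^2)) ≤ T^(-22)`
  have h2 : Real.exp (-((T / 3) ^ 2 / (2 * Δ ^ 2))) ≤ T ^ (-(22 : ℝ)) := by
    rw [Real.rpow_def_of_pos hT0]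
    apply Real.exp_le_exp.2
    have h3 : (20 * Δ * √(Real.log T)) ^ 2 ≤ T ^ 2 := by
      apply pow_le_pow_left₀ (by positivity) hB
    have h4 : (20 * Δ * √(Real.log T)) ^ 2 = 400 * Δ ^ 2 * Real.log T := by
      rw [mul_pow, mul_pow, Real.sq_sqrt (by linarith)]
      ring
    rw [h4] at h3
    have h5 : 22 * Real.log T ≤ (T / 3) ^ 2 / (2 * Δ ^ 2) := by
      rw [le_div_iff₀ (by positivity)]
      nlinarith [mul_pos (pow_pos hΔ0 2) (lt_of_lt_of_le one_pos hlog)]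
    linarith
  have h6 : √(2 * Real.pi) * Δ ≤ 3 * T := by
    have h7 : √(2 * Real.pi) ≤ 3 := by
      rw [Real.sqrt_le_left (by norm_num)]
      have := Real.pi_lt_d2
      linarith
    have h8 : Δ ≤ T := by
      have : Δ * 1 ≤ 20 * Δ * √(Real.log T) := by nlinarith
      linarith
    nlinarith [Real.sqrt_nonneg (2 * Real.pi)]
  have h9 : Real.exp (49 / 4) ≤ 3 ^ 13 := by
    calc Real.exp (49 / 4) ≤ Real.exp (13 * 1) := Real.exp_le_exp.2 (by norm_num)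
      _ = Real.exp 1 ^ 13 := by rw [← Real.exp_nat_mul]; norm_num
      _ ≤ 3 ^ 13 := by
        refine pow_le_pow_left₀ (Real.exp_pos _).le ?_ 13
        have := Real.exp_one_lt_d9
        linarith
  calc Real.exp (49 / 4) * (Real.exp (-((T / 3) ^ 2 / (2 * Δ ^ 2))) * (√(2 * Real.pi) * Δ))
      ≤ 3 ^ 13 * (T ^ (-(22 : ℝ)) * (3 * T)) := by gcongr
    _ = 3 ^ 14 * (T ^ (-(22 : ℝ)) * T) := by ring
    _ = 3 ^ 14 * T ^ (-(21 : ℝ)) := by
        congr 1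
        nth_rewrite 2 [← Real.rpow_one T]
        rw [← Real.rpow_add hT0]
        norm_num
    _ ≤ T ^ (15 : ℝ) * T ^ (-(21 : ℝ)) := by
        refine mul_le_mul_of_nonneg_right ?_ (by positivity)
        have h10 : (100 : ℝ) ^ (15 : ℝ) ≤ T ^ (15 : ℝ) :=
          Real.rpow_le_rpow (by norm_num) hT (by norm_num)
        refine le_trans ?_ h10
        norm_num
    _ = T ^ (-(6 : ℝ)) := by
        rw [← Real.rpow_add hT0]
        norm_num

end Pool.Agent.TH81.ER
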